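import Mathlib

set_option autoImplicit false

namespace Pool.Agent.Results.MP_16faa7_an.Convex

open Set Real

/-- the admissible exponents -/
def S (γ α : ℝ) : Set ℝ :=
  {β | 0 < β ∧ ∀ z ∈ Ioo (0 : ℝ) 1, γ * z ^ (β - α) * (1 - z ^ α) ≤ 1 - z}

lemma pos {u : ℝ} (h : 0 < u) : 0 < 1 - exp (-u) := sub_pos.2 (exp_lt_one_iff.2 (by linarith))

lemma iff {γ α β : ℝ} (hγ : 0 < γ) (hα : 0 < α) : β ∈ S γ α ↔ 0 < β ∧ ∀ s > 0,
    α * (log γ + log (1 - exp (-s)) + s) - s * β ≤ α * log (1 - exp (-(s / α))) := by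
  have key : ∀ s > 0, (γ * exp (-(s / α)) ^ (β - α) * (1 - exp (-(s / α)) ^ α) ≤ 1 - exp (-(s / α))
      ↔ α * (log γ + log (1 - exp (-s)) + s) - s * β ≤ α * log (1 - exp (-(s / α)))) := by
    intro s hs
    rw [← exp_mul, ← exp_mul, neg_mul (s / α) α, div_mul_cancel₀ _ hα.ne',
      ← log_le_log_iff (by have := pos hs; positivity) (pos (by positivity)),
      log_mul (by positivity) (pos hs).ne', log_mul hγ.ne' (exp_ne_zero _), log_exp,
      ← mul_le_mul_iff_right₀ hα]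
    exact iff_of_eq (congrArg₂ _ (by field_simp; ring) rfl)
  refine and_congr_right fun _ => ⟨fun h s hs => (key s hs).1 (h _
    ⟨exp_pos _, exp_lt_one_iff.2 (neg_neg_iff_pos.2 (by positivity))⟩), fun h z hz => ?_⟩
  have h1 : 0 < -log z * α := mul_pos (neg_pos.2 (log_neg hz.1 hz.2)) hα
  have := (key _ h1).2 (h _ h1)
  rwa [mul_div_cancel_right₀ _ hα.ne', neg_neg, exp_log hz.1] at this

lemma conc {u v a b : ℝ} (hu : 0 < u) (hv : 0 < v) (ha : 0 ≤ a) (hb : 0 ≤ b) (h : a + b = 1) :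
    a * log (1 - exp (-u)) + b * log (1 - exp (-v)) ≤ log (1 - exp (-(a * u + b * v))) := by
  have h1 := strictConcaveOn_log_Ioi.concaveOn.2 (pos hu) (pos hv) ha hb h
  have h2 := convexOn_exp.2 (mem_univ (-u)) (mem_univ (-v)) ha hb h
  simp only [smul_eq_mul] at h1 h2
  refine h1.trans (log_le_log ((convex_Ioi (0 : ℝ)) (pos hu) (pos hv) ha hb h) ?_)
  rw [show -(a * u + b * v) = a * -u + b * -v by ring]
  nlinarith

theorem result (γ : ℝ) (hγ : 1 < γ) : ConvexOn ℝ (Ioo 0 (1 / γ)) fun α => sInf (S γ α) := by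
  have g0 : 0 < γ := by linarith
  have ne : ∀ α ∈ Ioo 0 (1 / γ), (S γ α).Nonempty := fun α hα => ⟨α + 1, by linarith [hα.1], fun z hz => by
    have h1 := add_one_le_exp (log z * α)
    have h2 := one_sub_inv_le_log_of_pos hz.1
    have h3 := (lt_div_iff₀ g0).1 hα.2
    have h4 : z * (1 - z⁻¹) = z - 1 := by field_simp [hz.1.ne']
    have h5 := mul_le_mul_of_nonneg_left h2 hz.1.le
    rw [add_sub_cancel_left, rpow_one, rpow_def_of_pos hz.1]
    have h6 : z * (1 - exp (log z * α)) ≤ α * (1 - z) := by nlinarith [hz.1, hα.1]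
    nlinarith [hz.2]⟩
  have bd : ∀ α, BddBelow (S γ α) := fun α => ⟨0, fun _ h => h.1.le⟩
  refine ⟨convex_Ioo _ _, fun x hx y hy a b ha hb h => le_of_forall_pos_le_add fun ε hε => ?_⟩
  obtain ⟨p, p1, p2⟩ := exists_lt_of_csInf_lt (ne x hx) (lt_add_of_pos_right _ hε)
  obtain ⟨q, q1, q2⟩ := exists_lt_of_csInf_lt (ne y hy) (lt_add_of_pos_right _ hε)
  have hw := (convex_Ioo _ _ hx hy ha hb h).1
  simp only [smul_eq_mul] at hw ⊢
  refine (csInf_le (bd _) (a := a * p + b * q) ?_).trans (by nlinarith)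
  rw [iff g0 hx.1] at p1
  rw [iff g0 hy.1] at q1
  refine (iff g0 hw).2 ⟨convex_Ioi (0 : ℝ) p1.1 q1.1 ha hb h, fun s hs => ?_⟩
  have x0 := hx.1
  have y0 := hy.1
  have := mul_le_mul_of_nonneg_left (conc (div_pos hs x0) (div_pos hs y0)
    (a := a * x / (a * x + b * y)) (b := b * y / (a * x + b * y)) (by positivity) (by positivity)
    (by field_simp)) hw.le
  rw [show a * x / (a * x + b * y) * (s / x) + b * y / (a * x + b * y) * (s / y) = s / (a * x + b * y) by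
    field_simp; rw [h], mul_add, ← mul_assoc, ← mul_assoc, mul_div_cancel₀ _ hw.ne',
    mul_div_cancel₀ _ hw.ne'] at this
  nlinarith [mul_le_mul_of_nonneg_left (p1.2 s hs) ha, mul_le_mul_of_nonneg_left (q1.2 s hs) hb]

end Pool.Agent.Results.MP_16faa7_an.Convex
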